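import Pool.Agent.Q99.XF.Stm
import Pool.Agent.Q208.KN.LC
import Pool.Agent.Q280.KN.GAM
import Pool.Agent.Q287.HT.TBA
import Pool.Agent.Q202.HX2.UA
import Pool.Agent.Q299.FAL.CR

/-! Project XF (helper99), job HU: the amplitude has a uniform expansion. -/

set_option autoImplicit false
set_option linter.unusedSectionVars false
set_option linter.unusedVariables false

namespace Pool.Agent.Q190.XF.HU

open Finset Filter Topology MeasureTheory
open Pool.Agent.W719.BS (D LL)
open Pool.Agent.W719.AX (UX)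
open Pool.Agent.Q99.FAL
open Pool.Agent.Q99.KN (LC bb Gm St ct S_LC S_GAM)
open Pool.Agent.Q99.HT
open Pool.Agent.Q99.HX (Xp UA Sd S_GX S_UA S_FLAP)
open Pool.Agent.Q299.FAL (vc XL XL_apply)
open Pool.Agent.Q99.XF

/-- minimum of positive numbers -/
theorem pos_min {ι : Type} [Fintype ι] (f : ι → ℝ) (hf : ∀ i, 0 < f i) :
    ∃ m : ℝ, 0 < m ∧ ∀ i, m ≤ f i := by
  have h1 : 0 ≤ ∑ i, (f i)⁻¹ := Finset.sum_nonneg fun i _ => (inv_pos.2 (hf i)).le
  refine ⟨(1 + ∑ i, (f i)⁻¹)⁻¹, inv_pos.2 (by linarith), fun i => ?_⟩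
  have h2 : (f i)⁻¹ ≤ ∑ i, (f i)⁻¹ :=
    Finset.single_le_sum (f := fun i => (f i)⁻¹) (fun i _ => (inv_pos.2 (hf i)).le)
      (Finset.mem_univ i)
  exact inv_le_of_inv_le₀ (hf i) (by linarith)

/-- maximum of nonnegative numbers -/
theorem pos_max {ι : Type} [Fintype ι] (f : ι → ℝ) (hf : ∀ i, 0 ≤ f i) :
    ∃ m : ℝ, 0 < m ∧ ∀ i, f i ≤ m := by
  have h1 : 0 ≤ ∑ i, f i := Finset.sum_nonneg fun i _ => hf i
  refine ⟨1 + ∑ i, f i, by linarith, fun i => ?_⟩
  have h2 : f i ≤ ∑ i, f i := Finset.single_le_sum (f := f) (fun i _ => hf i) (Finset.mem_univ i)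
  linarith

theorem norm_lin {d : ℕ} (e : Fin d → ℤ) (u : Fin d → ℂ) :
    ‖∑ j, u j * ((e j : ℤ) : ℂ)‖ ≤ ‖u‖ * ∑ j, |(e j : ℝ)| := by
  rw [Finset.mul_sum]
  refine (norm_sum_le _ _).trans (Finset.sum_le_sum fun j _ => ?_)
  rw [norm_mul]
  have h1 : ‖((e j : ℤ) : ℂ)‖ = |(e j : ℝ)| := by
    rw [← Complex.ofReal_intCast, Complex.norm_real, Real.norm_eq_abs]
  rw [h1]
  exact mul_le_mul_of_nonneg_right (norm_le_pi_norm u j) (abs_nonneg _)

theorem an_lin {d : ℕ} (e : Fin d → ℂ) (U : Set (Fin d → ℂ)) :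
    AnalyticOnNhd ℂ (fun u : Fin d → ℂ => ∑ j, u j * e j) U := by
  have h : ∀ j : Fin d, AnalyticOnNhd ℂ (fun u : Fin d → ℂ => u j * e j) U := fun j p _ =>
    ((ContinuousLinearMap.proj (R := ℂ) (φ := fun _ : Fin d => ℂ) j).analyticAt p).mul
      analyticAt_const
  have e1 : (fun u : Fin d → ℂ => ∑ j, u j * e j) = ∑ j, fun u : Fin d → ℂ => u j * e j := by
    funext u
    rw [Finset.sum_apply]
  rw [e1]
  intro z hz
  exact Finset.analyticAt_sum _ fun j _ => h j z hz

/-- the expansion of `exp (c / N)` -/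
theorem ua_exp {E : Type} [NormedAddCommGroup E] [NormedSpace ℂ E] (c : ℂ) (U : Set E) :
    UA (fun N (_ : E) => Complex.exp (c / N)) U := by
  refine ⟨fun k _ => c ^ k / k.factorial, fun K => ?_, fun k => analyticOnNhd_const⟩
  refine ⟨‖c‖ ^ K * Real.exp ‖c‖, ?_⟩
  filter_upwards [eventually_ge_atTop 1] with N hN p _
  have hN' : (1 : ℝ) ≤ N := by exact_mod_cast hN
  have h1 := Complex.norm_exp_sub_sum_le_norm_mul_exp (c / N) K
  have h2 : ∑ m ∈ range K, (c / (N : ℂ)) ^ m / (m.factorial : ℂ) =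
      ∑ k ∈ range K, c ^ k / (k.factorial : ℂ) / (N : ℂ) ^ k := by
    refine Finset.sum_congr rfl fun m _ => ?_
    rw [div_pow, div_right_comm]
  rw [h2] at h1
  refine h1.trans ?_
  have h3 : ‖c / (N : ℂ)‖ = ‖c‖ / N := by rw [norm_div, Complex.norm_natCast]
  rw [h3, div_pow, div_mul_eq_mul_div]
  refine div_le_div_of_nonneg_right ?_ (by positivity)
  refine mul_le_mul_of_nonneg_left (Real.exp_le_exp.2 ?_) (by positivity)
  exact div_le_self (norm_nonneg _) hN'

theorem diff_prod {E ι : Type} [NormedAddCommGroup E] [NormedSpace ℂ E] (s : Finset ι)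
    (f : ι → E → ℂ) (x : E) (h : ∀ i ∈ s, DifferentiableAt ℂ (f i) x) :
    DifferentiableAt ℂ (fun y => ∏ i ∈ s, f i y) x := by
  classical
  induction s using Finset.induction_on with
  | empty =>
    simp only [Finset.prod_empty]
    exact differentiableAt_const _
  | insert a s ha ih =>
    simp only [Finset.prod_insert ha]
    exact (h a (Finset.mem_insert_self _ _)).mul (ih fun i hi => h i (Finset.mem_insert_of_mem hi))

theorem tb_diff {E : Type} [NormedAddCommGroup E] [NormedSpace ℂ E] (N : ℕ) (f g : E → ℂ) (u : E)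
    (U : Set (ℂ × ℂ)) (hU : IsOpen U) (hd : DifferentiableOn ℂ (fun p : ℂ × ℂ => TB N p.1 p.2) U)
    (hf : DifferentiableAt ℂ f u) (hg : DifferentiableAt ℂ g u) (hm : (f u, g u) ∈ U) :
    DifferentiableAt ℂ (fun u => TB N (f u) (g u)) u := by
  have h1 : DifferentiableAt ℂ (fun p : ℂ × ℂ => TB N p.1 p.2) ((fun u => (f u, g u)) u) :=
    hd.differentiableAt (hU.mem_nhds hm)
  have h2 : DifferentiableAt ℂ (fun u => (f u, g u)) u := hf.prodMk hg
  exact h1.comp u h2

theorem tb_diff2 {E : Type} [NormedAddCommGroup E] [NormedSpace ℂ E] (N : ℕ) (f g : E → ℂ) (u : E)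
    (s t : ℂ) (x : ℂ) (ρ : ℝ)
    (hd : DifferentiableOn ℂ (fun p : ℂ × ℂ => TB N p.1 p.2) (Metric.ball (1 / 2 : ℂ) ρ ×ˢ
      Metric.ball x ρ))
    (hf : DifferentiableAt ℂ f u) (hg : DifferentiableAt ℂ g u) (h1 : ‖f u - 1 / 2‖ < ρ / 2)
    (h2 : ‖g u - x‖ < ρ / 2) (hs : ‖s‖ < ρ / 2) (ht : ‖t‖ < ρ / 2) :
    DifferentiableAt ℂ (fun u => TB N (f u + s) (g u - t)) u := by
  refine tb_diff N (fun u => f u + s) (fun u => g u - t) u _
    (Metric.isOpen_ball.prod Metric.isOpen_ball) hd (hf.add_const _) (hg.sub_const _) ⟨?_, ?_⟩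
  · rw [Metric.mem_ball, dist_eq_norm]
    have e1 : f u + s - 1 / 2 = (f u - 1 / 2) + s := by ring
    simp only [e1]
    exact lt_of_le_of_lt (norm_add_le _ _) (by linarith)
  · rw [Metric.mem_ball, dist_eq_norm]
    have e1 : g u - t - x = (g u - x) - t := by ring
    simp only [e1]
    exact lt_of_le_of_lt (norm_sub_le _ _) (by linarith)

/-- JOB HU -/
theorem task_HU : S_HU := by
  classical
  intro hBX c d X p a E τ w hB
  have hLC : S_LC := Pool.Agent.Q208.KN.task_LC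
  have hGAM : S_GAM := Pool.Agent.Q280.KN.task_GAM
  obtain ⟨u1, u2, u3, -, u5⟩ := Pool.Agent.Q202.HX2.task_UA
  -- the radius
  have hlive : ∀ b i, Lv a b i → 0 < a b i ∧ a b i < 1 / 2 := fun b i h =>
    ⟨lt_of_le_of_ne (hB.top.1.2.1 _ _) (Ne.symm h.1),
      lt_of_le_of_ne (Pool.Agent.Q99.FAL.MX.ang_le hB.top.1 _ _) h.2⟩
  have hbr : ∀ q : Fin c × Fin 6, ∃ ρ : ℝ, 0 < ρ ∧
      (Lv a q.1 q.2 → 8 * ρ ≤ a q.1 q.2 ∧ 8 * ρ ≤ 1 / 2 - a q.1 q.2) := by
    intro q
    by_cases h : Lv a q.1 q.2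
    · obtain ⟨p0, p1⟩ := hlive _ _ h
      refine ⟨min (a q.1 q.2) (1 / 2 - a q.1 q.2) / 8, ?_, fun _ => ⟨?_, ?_⟩⟩
      · have := lt_min p0 (sub_pos.2 p1)
        linarith
      · have := min_le_left (a q.1 q.2) (1 / 2 - a q.1 q.2)
        linarith
      · have := min_le_right (a q.1 q.2) (1 / 2 - a q.1 q.2)
        linarith
    · exact ⟨1, one_pos, fun h' => absurd h' h⟩
  choose ρf hρf hbr using hbr
  obtain ⟨ρ, hρ, hρl⟩ := pos_min ρf hρf
  have h8 : ∀ b i, Lv a b i → 8 * ρ ≤ a b i ∧ 8 * ρ ≤ 1 / 2 - a b i := by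
    intro b i h
    have h1 := hbr (b, i) h
    have h2 := hρl (b, i)
    simp only at h1
    exact ⟨by linarith [h1.1], by linarith [h1.2]⟩
  obtain ⟨M, hM, hMl⟩ := pos_max (fun q : Fin c × Fin 6 => (∑ j, |(E j q.1 q.2 : ℝ)|) +
    ∑ j, |((dn (E j q.1) q.2 : ℤ) : ℝ)|) fun q => add_nonneg
      (Finset.sum_nonneg fun _ _ => abs_nonneg _) (Finset.sum_nonneg fun _ _ => abs_nonneg _)
  refine ⟨ρ / (2 * M), by positivity, ?_⟩
  intro R hR0 hR
  have hx : ∀ b i, ∀ u ∈ Metric.ball (0 : Fin d → ℂ) R,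
      ‖nu' E b i u - 1 / 2‖ < ρ / 2 ∧ ‖xi a E b i u - (a b i : ℂ)‖ < ρ / 2 := by
    intro b i u hu
    have hu' : ‖u‖ < ρ / (2 * M) := by
      rw [Metric.mem_ball, dist_zero_right] at hu
      exact lt_of_lt_of_le hu hR
    have h1 : xi a E b i u - (a b i : ℂ) = ∑ j, u j * ((E j b i : ℤ) : ℂ) := by
      unfold xi
      ring
    have h2 : nu' E b i u - 1 / 2 = ∑ j, u j * ((dn (E j b) i : ℤ) : ℂ) := by
      unfold nu'
      ring
    have h3 := hMl (b, i)
    simp only at h3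
    have h4 : 0 ≤ ∑ j, |(E j b i : ℝ)| := Finset.sum_nonneg fun _ _ => abs_nonneg _
    have h5 : 0 ≤ ∑ j, |((dn (E j b) i : ℤ) : ℝ)| := Finset.sum_nonneg fun _ _ => abs_nonneg _
    have h6 : ‖u‖ * M < ρ / 2 := by
      rw [lt_div_iff₀ (by positivity)] at hu'
      linarith
    rw [h1, h2]
    constructor
    · refine lt_of_le_of_lt ((norm_lin _ _).trans ?_) h6
      exact mul_le_mul_of_nonneg_left (by linarith) (norm_nonneg _)
    · refine lt_of_le_of_lt ((norm_lin _ _).trans ?_) h6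
      exact mul_le_mul_of_nonneg_left (by linarith) (norm_nonneg _)
  have an_nu : ∀ b i, ∀ U : Set (Fin d → ℂ), AnalyticOnNhd ℂ (nu' E b i) U := fun b i U =>
    (analyticOnNhd_const (v := (1 / 2 : ℂ))).add (an_lin (fun j => ((dn (E j b) i : ℤ) : ℂ)) U)
  have an_xi : ∀ b i, ∀ U : Set (Fin d → ℂ), AnalyticOnNhd ℂ (xi a E b i) U := fun b i U =>
    (analyticOnNhd_const (v := (a b i : ℂ))).add (an_lin (fun j => ((E j b i : ℤ) : ℂ)) U)
  have an_ze : ∀ b, ∀ U : Set (Fin d → ℂ), AnalyticOnNhd ℂ (ze E b) U := fun b U =>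
    an_lin (fun j => ((n1 (E j b) - n2 (E j b) : ℤ) : ℂ)) U
  have an_ph : ∀ b, ∀ U : Set (Fin d → ℂ), AnalyticOnNhd ℂ
      (fun u => Complex.exp (Complex.I * Real.pi * w b * (-(kap X b * ze E b u / 2)))) U := by
    intro b U z hz
    exact (analyticAt_const.mul ((analyticAt_const.mul (an_ze b U z hz)).div analyticAt_const
      two_ne_zero).neg).cexp
  have hphase : ∀ b, ∀ (N : ℕ) (u : Fin d → ℂ),
      Complex.exp (Complex.I * Real.pi * w b * (-(kap X b * ze E b u / 2) +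
        kap X b ^ 2 / (4 * N))) =
      Complex.exp (Complex.I * Real.pi * w b * (-(kap X b * ze E b u / 2))) *
        Complex.exp (Complex.I * Real.pi * w b * kap X b ^ 2 / 4 / N) := by
    intro b N u
    rw [← Complex.exp_add]
    congr 1
    ring
  constructor
  · -- the expansion
    unfold HH
    refine u1 _ _ _ _ (u5 _ _ _ _ _ fun b _ => u5 _ _ _ _ _ fun i _ => ?_)
      (u5 _ _ _ _ _ fun b _ => ?_)
    · by_cases h : Lv a b i
      · simp only [if_pos h]
        obtain ⟨p0, p1⟩ := hlive b i h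
        obtain ⟨q0, q1⟩ := h8 b i h
        have hU := hBX (a b i) p0 p1 ρ hρ q0 q1 ((X.a0 b i : ℤ) : ℝ)
          (1 / 2 - (dn (X.a0 b) i : ℤ) : ℝ)
        exact u2 (Fin d → ℂ) (ℂ × ℂ) _ (fun u => (nu' E b i u, xi a E b i u)) (Metric.ball 0 R) _ hU
          ((an_nu b i _).prod (an_xi b i _)) (fun u hu => by
            obtain ⟨h1, h2⟩ := hx b i u hu
            refine ⟨?_, ?_⟩
            · rw [Metric.mem_ball, dist_eq_norm]
              exact lt_trans h1 (by linarith)
            · rw [Metric.mem_ball, dist_eq_norm]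
              exact lt_trans h2 (by linarith))
      · simp only [if_neg h]
        exact u3 _ (fun _ => 1) _ 1 analyticOnNhd_const (by simp)
    · simp only [hphase]
      refine u1 _ _ _ _ ?_ (ua_exp _ _)
      obtain ⟨B, hBd⟩ := (isCompact_closedBall (0 : Fin d → ℂ) R).exists_bound_of_continuousOn
        (an_ph b (Metric.closedBall 0 R)).continuousOn
      exact u3 _ _ _ B (an_ph b _) fun u hu => hBd u (Metric.ball_subset_closedBall hu)
  · -- differentiability
    obtain ⟨S, hS, hSl⟩ := pos_max (fun q : Fin c × Fin 6 =>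
      |(1 / 2 - (dn (X.a0 q.1) q.2 : ℤ) : ℝ)| + |((X.a0 q.1 q.2 : ℤ) : ℝ)|) fun q => by positivity
    filter_upwards [eventually_gt_atTop (⌈2 * S / ρ⌉₊ + 1)] with N hN
    have hN1 : 1 ≤ N := by omega
    have hN0 : (0 : ℝ) < N := by exact_mod_cast hN1
    have hN2 : 2 * S / ρ < N := lt_of_le_of_lt (Nat.le_ceil _) (by exact_mod_cast (by omega : ⌈2 * S / ρ⌉₊ < N))
    have hN3 : S / N < ρ / 2 := by
      rw [div_lt_iff₀ hρ] at hN2
      rw [div_lt_iff₀ hN0]
      linarith
    have hsh : ∀ s : ℝ, |s| ≤ S → ‖(s : ℂ) / N‖ < ρ / 2 := by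
      intro s hs
      rw [norm_div, Complex.norm_natCast, Complex.norm_real, Real.norm_eq_abs]
      exact lt_of_le_of_lt (div_le_div_of_nonneg_right hs hN0.le) hN3
    intro u hu
    apply DifferentiableAt.differentiableWithinAt
    unfold HH
    refine DifferentiableAt.mul (diff_prod _ _ _ fun b _ =>
      diff_prod _ _ _ fun i _ => ?_) (diff_prod _ _ _ fun b _ => ?_)
    · by_cases h : Lv a b i
      · simp only [if_pos h]
        obtain ⟨p0, p1⟩ := hlive b i h
        obtain ⟨q0, q1⟩ := h8 b i h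
        obtain ⟨C0, hC0⟩ := Pool.Agent.Q287.HT.task_TBA hLC hGAM (a b i) p0 p1 ρ hρ q0 q1
        have hd := (hC0 N hN1).1
        obtain ⟨x1, x2⟩ := hx b i u hu
        have hdν : DifferentiableAt ℂ (nu' E b i) u := (an_nu b i Set.univ u trivial).differentiableAt
        have hdξ : DifferentiableAt ℂ (xi a E b i) u := (an_xi b i Set.univ u trivial).differentiableAt
        have s1 := hSl (b, i)
        simp only at s1
        have s2 := abs_nonneg (1 / 2 - (dn (X.a0 b) i : ℤ) : ℝ)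
        have s3 := abs_nonneg ((X.a0 b i : ℤ) : ℝ)
        have s4 := hsh (1 / 2 - (dn (X.a0 b) i : ℤ) : ℝ) (by linarith)
        have s5 := hsh ((X.a0 b i : ℤ) : ℝ) (by linarith)
        have hTB : DifferentiableAt ℂ (fun u => TB N
            (nu' E b i u + ((1 / 2 - (dn (X.a0 b) i : ℤ) : ℝ) : ℂ) / N)
            (xi a E b i u - (((X.a0 b i : ℤ) : ℝ) : ℂ) / N)) u :=
          tb_diff2 N (nu' E b i) (xi a E b i) u _ _ _ ρ hd hdν hdξ x1 x2 s4 s5
        have r1 : |(nu' E b i u).re - 1 / 2| < ρ / 2 := by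
          have h1 := Complex.abs_re_le_norm (nu' E b i u - 1 / 2)
          have h2 : (nu' E b i u - 1 / 2).re = (nu' E b i u).re - 1 / 2 := by
            rw [Complex.sub_re]
            norm_num
          rw [h2] at h1
          exact lt_of_le_of_lt h1 x1
        have r2 : |(xi a E b i u).re - a b i| < ρ / 2 := by
          have h1 := Complex.abs_re_le_norm (xi a E b i u - (a b i : ℂ))
          rw [Complex.sub_re, Complex.ofReal_re] at h1
          exact lt_of_le_of_lt h1 x2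
        rw [abs_lt] at r1 r2
        have m1 : nu' E b i u ∈ St := ⟨by linarith [r1.1], by linarith [r1.2]⟩
        have m2 : xi a E b i u ∈ St := ⟨by linarith [r2.1], by linarith [r2.2]⟩
        have m3 : nu' E b i u - xi a E b i u ∈ St := by
          refine ⟨?_, ?_⟩
          · rw [Complex.sub_re]
            linarith [r1.1, r2.2]
          · rw [Complex.sub_re]
            linarith [r1.2, r2.1]
        have hLT : DifferentiableAt ℂ (fun u => LT (nu' E b i u) (xi a E b i u)) u := by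
          unfold Pool.Agent.Q99.HT.LT
          refine DifferentiableAt.sub (DifferentiableAt.sub ?_ ?_) ?_
          · exact (hLC.1 _ m1).differentiableAt.comp u hdν
          · exact DifferentiableAt.comp (g := LC) u (hLC.1 _ m3).differentiableAt (hdν.sub hdξ)
          · exact (hLC.1 _ m2).differentiableAt.comp u hdξ
        exact ((differentiableAt_const _).mul hTB).mul
          (((differentiableAt_const _).mul hLT).neg).cexp
      · simp only [if_neg h]
        exact differentiableAt_const _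
    · simp only [hphase]
      exact ((an_ph b Set.univ u trivial).differentiableAt).mul (differentiableAt_const _)

end Pool.Agent.Q190.XF.HU
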