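import Pool.Agent.Q99.XF.Stm
import Pool.Agent.Q208.KN.LC
import Pool.Agent.Q24.HT.LTd
import Pool.Agent.Q287.HT.LTH
import Pool.Agent.Q299.FAL.CR

/-! Project XF (helper99), job QB: Gaussian upper bound of the exponent near the centre. -/

set_option autoImplicit false
set_option linter.unusedSectionVars false
set_option linter.unusedVariables false

namespace Pool.Agent.Q190.XF

open Finset Filter Topology MeasureTheory
open Pool.Agent.W719.BS (D LL)
open Pool.Agent.Q99.FAL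
open Pool.Agent.Q99.KN (LC bb Gm St ct S_LC S_GAM)
open Pool.Agent.Q99.HT
open Pool.Agent.Q99.HX (Xp UA Sd S_GX S_UA S_FLAP)
open Pool.Agent.Q299.FAL (vc XL XL_apply)
open Pool.Agent.Q99.XF

/-- minimum of positive numbers -/
theorem pos_min {ι : Type} [Fintype ι] (f : ι → ℝ) (hf : ∀ i, 0 < f i) :
    ∃ m : ℝ, 0 < m ∧ ∀ i, m ≤ f i := by
  have h1 : 0 ≤ ∑ i, (f i)⁻¹ := Finset.sum_nonneg fun i _ => (inv_pos.2 (hf i)).le
  refine ⟨(1 + ∑ i, (f i)⁻¹)⁻¹, inv_pos.2 (by linarith), fun i => ?_⟩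
  have h2 : (f i)⁻¹ ≤ ∑ i, (f i)⁻¹ :=
    Finset.single_le_sum (f := fun i => (f i)⁻¹) (fun i _ => (inv_pos.2 (hf i)).le)
      (Finset.mem_univ i)
  exact inv_le_of_inv_le₀ (hf i) (by linarith)

/-- maximum of nonnegative numbers -/
theorem pos_max {ι : Type} [Fintype ι] (f : ι → ℝ) (hf : ∀ i, 0 ≤ f i) :
    ∃ m : ℝ, 0 < m ∧ ∀ i, f i ≤ m := by
  have h1 : 0 ≤ ∑ i, f i := Finset.sum_nonneg fun i _ => hf i
  refine ⟨1 + ∑ i, f i, by linarith, fun i => ?_⟩
  have h2 : f i ≤ ∑ i, f i := Finset.single_le_sum (f := f) (fun i _ => hf i) (Finset.mem_univ i)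
  linarith

theorem re_lin {d : ℕ} (e : Fin d → ℤ) (u : Fin d → ℂ) :
    (∑ j, u j * ((e j : ℤ) : ℂ)).re = ∑ j, (u j).re * (e j : ℝ) := by
  rw [Complex.re_sum]
  refine Finset.sum_congr rfl fun j _ => ?_
  rw [Complex.mul_re, Complex.intCast_re, Complex.intCast_im, mul_zero, sub_zero]

theorem im_lin {d : ℕ} (e : Fin d → ℤ) (u : Fin d → ℂ) :
    (∑ j, u j * ((e j : ℤ) : ℂ)).im = ∑ j, (u j).im * (e j : ℝ) := by
  rw [Complex.im_sum]
  refine Finset.sum_congr rfl fun j _ => ?_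
  rw [Complex.mul_im, Complex.intCast_re, Complex.intCast_im, mul_zero, zero_add]

theorem norm_lin {d : ℕ} (e : Fin d → ℤ) (u : Fin d → ℂ) :
    ‖∑ j, u j * ((e j : ℤ) : ℂ)‖ ≤ ‖u‖ * ∑ j, |(e j : ℝ)| := by
  rw [Finset.mul_sum]
  refine (norm_sum_le _ _).trans (Finset.sum_le_sum fun j _ => ?_)
  rw [norm_mul]
  have h1 : ‖((e j : ℤ) : ℂ)‖ = |(e j : ℝ)| := by
    rw [← Complex.ofReal_intCast, Complex.norm_real, Real.norm_eq_abs]
  rw [h1]
  exact mul_le_mul_of_nonneg_right (norm_le_pi_norm u j) (abs_nonneg _)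

theorem XLa {c d : ℕ} (E : Fin d → Fin c → Fin 6 → ℤ) (y : Fin d → ℝ) (b : Fin c) (i : Fin 6) :
    XL E y b i = ∑ j, y j * (E j b i : ℝ) := by
  rw [XL_apply, Finset.sum_apply, Finset.sum_apply]
  rfl

theorem XLd {c d : ℕ} (E : Fin d → Fin c → Fin 6 → ℤ) (y : Fin d → ℝ) (b : Fin c) (i : Fin 6) :
    dn (XL E y b) i = ∑ j, y j * ((dn (E j b) i : ℤ) : ℝ) := by
  unfold dn n1 n2
  split_ifs
  · rw [XLa, XLa, XLa, ← Finset.sum_add_distrib, ← Finset.sum_add_distrib]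
    refine Finset.sum_congr rfl fun j _ => ?_
    push_cast
    ring
  · rw [XLa, XLa, XLa, ← Finset.sum_add_distrib, ← Finset.sum_add_distrib]
    refine Finset.sum_congr rfl fun j _ => ?_
    push_cast
    ring

theorem cs {d : ℕ} (y : Fin d → ℝ) (e : Fin d → ℤ) :
    (∑ j, y j * (e j : ℝ)) ^ 2 ≤ (∑ j, (e j : ℝ) ^ 2) * ∑ j, y j ^ 2 := by
  rw [mul_comm]
  exact Finset.sum_mul_sq_le_sq_mul_sq _ _ _

theorem ze_re (w : ℝ) (z : ℂ) :
    (Complex.I * Real.pi * w / 4 * z ^ 2).re = -(Real.pi * w / 2 * (z.re * z.im)) := by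
  rw [show Complex.I * Real.pi * w / 4 * z ^ 2 =
    ((Real.pi * w / 4 : ℝ) : ℂ) * (Complex.I * z ^ 2) by push_cast; ring, Complex.re_ofReal_mul,
    Complex.I_mul_re, pow_two, Complex.mul_im]
  ring

theorem amgm (t p q ε : ℝ) (hε : 0 < ε) :
    -(t / 2 * (p * q)) ≤ ε * p ^ 2 + t ^ 2 / (16 * ε) * q ^ 2 := by
  have h1 : ε * p ^ 2 + t ^ 2 / (16 * ε) * q ^ 2 + t / 2 * (p * q) =
      (ε * p + t * q / 4) ^ 2 / ε := by
    field_simp
    ring
  have h2 : 0 ≤ (ε * p + t * q / 4) ^ 2 / ε := div_nonneg (sq_nonneg _) hε.le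
  linarith

/-- JOB QB -/
theorem task_QB : Pool.Agent.Q99.XF.S_QB := by
  classical
  intro hLV c d X p a E τ w hB
  have hpi := Real.pi_pos
  obtain ⟨KL, hKL, hLV'⟩ := hLV c d X p a E τ hB
  -- the constants of the brackets
  have hbr : ∀ q : Fin c × Fin 6, ∃ ρ κ K : ℝ, 0 < ρ ∧ 0 < κ ∧ 0 < K ∧ (Lv a q.1 q.2 →
      ∀ ν ξ : ℂ, ‖ν - 1 / 2‖ < ρ → ‖ξ - (a q.1 q.2 : ℝ)‖ < ρ → (LT ν ξ).re ≤
      hh (a q.1 q.2) - Real.log (Real.tan (Real.pi * a q.1 q.2)) * (ξ.re - a q.1 q.2) -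
        Real.log (Real.cos (Real.pi * a q.1 q.2)) * (ν.re - 1 / 2) -
        κ * ((ξ.re - a q.1 q.2) ^ 2 + (ν.re - 1 / 2) ^ 2) + K * (ξ.im ^ 2 + ν.im ^ 2)) := by
    intro q
    by_cases h : Lv a q.1 q.2
    · have p0 : 0 < a q.1 q.2 := lt_of_le_of_ne (hB.top.1.2.1 _ _) (Ne.symm h.1)
      have p1 : a q.1 q.2 < 1 / 2 :=
        lt_of_le_of_ne (Pool.Agent.Q99.FAL.MX.ang_le hB.top.1 _ _) h.2
      obtain ⟨ρ, κ, K, h1, -, -, h2, h3, h4, -⟩ := Pool.Agent.Q287.HT.task_LTH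
        Pool.Agent.Q208.KN.task_LC Pool.Agent.Q24.HT.task_LTd _ p0 p1
      exact ⟨ρ, κ, K, h1, h2, lt_of_lt_of_le h2 h3, fun _ => h4⟩
    · exact ⟨1, 1, 1, one_pos, one_pos, one_pos, fun h' => absurd h' h⟩
  choose ρf κf Kf hρf hκf hKf hbr using hbr
  obtain ⟨ρ, hρ, hρl⟩ := pos_min ρf hρf
  obtain ⟨κ, hκ, hκl⟩ := pos_min κf hκf
  obtain ⟨K, hK, hKl⟩ := pos_max Kf fun q => (hKf q).le
  -- bound of the linear forms
  obtain ⟨M, hM, hMl⟩ := pos_max (fun q : Fin c × Fin 6 => (∑ j, |(E j q.1 q.2 : ℝ)|) +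
    ∑ j, |((dn (E j q.1) q.2 : ℤ) : ℝ)|) fun q => add_nonneg
      (Finset.sum_nonneg fun _ _ => abs_nonneg _) (Finset.sum_nonneg fun _ _ => abs_nonneg _)
  obtain ⟨R, hR⟩ : ∃ R : ℝ, R = ρ / M := ⟨_, rfl⟩
  have hR0 : 0 < R := by rw [hR]; exact div_pos hρ hM
  obtain ⟨C, hC⟩ : ∃ C : ℝ, C = ∑ b, ∑ i, ((∑ j, (E j b i : ℝ) ^ 2) +
    ∑ j, ((dn (E j b) i : ℤ) : ℝ) ^ 2) := ⟨_, rfl⟩
  have hC0 : 0 ≤ C := by
    rw [hC]
    positivity
  obtain ⟨Z, hZ⟩ : ∃ Z : ℝ, Z = ∑ b, ∑ j, ((n1 (E j b) - n2 (E j b) : ℤ) : ℝ) ^ 2 := ⟨_, rfl⟩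
  have hZ0 : 0 ≤ Z := by
    rw [hZ]
    positivity
  obtain ⟨W, hW⟩ : ∃ W : ℝ, W = ∑ b, (Real.pi * w b) ^ 2 *
    ∑ j, ((n1 (E j b) - n2 (E j b) : ℤ) : ℝ) ^ 2 := ⟨_, rfl⟩
  have hW0 : 0 ≤ W := by
    rw [hW]
    positivity
  obtain ⟨ε, hε⟩ : ∃ ε : ℝ, ε = κ / (2 * KL * (Z + 1)) := ⟨_, rfl⟩
  have hε0 : 0 < ε := by
    rw [hε]
    positivity
  have hεZ : ε * Z ≤ κ / (2 * KL) := by
    have h1 : ε * (Z + 1) = κ / (2 * KL) := by
      rw [hε]
      field_simp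
    have h2 : ε * Z ≤ ε * (Z + 1) := mul_le_mul_of_nonneg_left (by linarith) hε0.le
    linarith
  refine ⟨R, κ / (2 * KL), K * C + W / (16 * ε) + 1, hR0, by positivity, by positivity, ?_⟩
  intro u hu
  have hu' : ‖u‖ < R := by rwa [Metric.mem_ball, dist_zero_right] at hu
  obtain ⟨y, hy⟩ : ∃ y : Fin d → ℝ, y = fun j => (u j).re := ⟨_, rfl⟩
  obtain ⟨v, hv⟩ : ∃ v : Fin d → ℝ, v = fun j => (u j).im := ⟨_, rfl⟩
  have hyj : ∀ j, (u j).re = y j := fun j => by rw [hy]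
  have hvj : ∀ j, (u j).im = v j := fun j => by rw [hv]
  simp only [hyj, hvj]
  obtain ⟨Y, hY⟩ : ∃ Y : ℝ, Y = ∑ j, y j ^ 2 := ⟨_, rfl⟩
  obtain ⟨V, hV⟩ : ∃ V : ℝ, V = ∑ j, v j ^ 2 := ⟨_, rfl⟩
  have hY0 : 0 ≤ Y := by rw [hY]; positivity
  have hV0 : 0 ≤ V := by rw [hV]; positivity
  rw [← hY, ← hV]
  -- the brackets
  have hx : ∀ b i, ‖xi a E b i u - (a b i : ℝ)‖ < ρ ∧ ‖nu' E b i u - 1 / 2‖ < ρ := by
    intro b i
    have h1 : xi a E b i u - (a b i : ℝ) = ∑ j, u j * ((E j b i : ℤ) : ℂ) := by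
      unfold xi
      ring
    have h2 : nu' E b i u - 1 / 2 = ∑ j, u j * ((dn (E j b) i : ℤ) : ℂ) := by
      unfold nu'
      ring
    have h3 := hMl (b, i)
    simp only at h3
    have h4 : 0 ≤ ∑ j, |(E j b i : ℝ)| := Finset.sum_nonneg fun _ _ => abs_nonneg _
    have h5 : 0 ≤ ∑ j, |((dn (E j b) i : ℤ) : ℝ)| := Finset.sum_nonneg fun _ _ => abs_nonneg _
    have h6 : ‖u‖ * M < ρ := by
      rw [hR, lt_div_iff₀ hM] at hu'
      exact hu'
    rw [h1, h2]
    constructor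
    · refine lt_of_le_of_lt ((norm_lin _ _).trans ?_) h6
      exact mul_le_mul_of_nonneg_left (by linarith) (norm_nonneg _)
    · refine lt_of_le_of_lt ((norm_lin _ _).trans ?_) h6
      exact mul_le_mul_of_nonneg_left (by linarith) (norm_nonneg _)
  have hxr : ∀ b i, (xi a E b i u).re - a b i = XL E y b i := by
    intro b i
    unfold xi
    rw [Complex.add_re, Complex.ofReal_re, re_lin, XLa]
    simp only [hyj]
    ring
  have hnr : ∀ b i, (nu' E b i u).re - 1 / 2 = dn (XL E y b) i := by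
    intro b i
    unfold nu'
    rw [Complex.add_re, re_lin, XLd]
    simp only [hyj]
    norm_num
  have hxi : ∀ b i, (xi a E b i u).im = XL E v b i := by
    intro b i
    unfold xi
    rw [Complex.add_im, Complex.ofReal_im, im_lin, XLa]
    simp only [hvj]
    ring
  have hni : ∀ b i, (nu' E b i u).im = dn (XL E v b) i := by
    intro b i
    unfold nu'
    rw [Complex.add_im, im_lin, XLd]
    simp only [hvj]
    norm_num
  have hcr := Pool.Agent.Q299.FAL.task_CR c X p hB.good a hB.top.1 hB.top.2.1 hB.top.2.2 (XL E y)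
    (by
      rw [XL_apply]
      refine Submodule.sum_mem _ fun j _ => Submodule.smul_mem _ _ (Submodule.subset_span ⟨E j, ?_, rfl⟩)
      have h1 := hB.mem (fun k => if k = j then 1 else 0)
      have h2 : ∑ k, (if k = j then (1 : ℤ) else 0) • E k = E j := by
        rw [Finset.sum_eq_single j]
        · rw [if_pos rfl, one_smul]
        · intro k _ hk
          rw [if_neg hk, zero_smul]
        · intro h
          exact absurd (Finset.mem_univ j) h
      rw [h2] at h1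
      exact h1)
  have hterm : ∀ b i, (if Lv a b i then LT (nu' E b i u) (xi a E b i u) - (hh (a b i) : ℂ)
      else 0).re ≤ -(Real.log (Real.tan (Real.pi * a b i)) * XL E y b i +
      Real.log (Real.cos (Real.pi * a b i)) * dn (XL E y b) i) -
      κ * (if Lv a b i then XL E y b i ^ 2 + dn (XL E y b) i ^ 2 else 0) +
      K * (XL E v b i ^ 2 + dn (XL E v b) i ^ 2) := by
    intro b i
    by_cases h : Lv a b i
    · rw [if_pos h, if_pos h, Complex.sub_re, Complex.ofReal_re]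
      have h1 := hbr (b, i) h (nu' E b i u) (xi a E b i u)
        (lt_of_lt_of_le (hx b i).2 (hρl _)) (lt_of_lt_of_le (hx b i).1 (hρl _))
      simp only [hxr, hnr, hxi, hni] at h1
      have h2 : κ * (XL E y b i ^ 2 + dn (XL E y b) i ^ 2) ≤
          κf (b, i) * (XL E y b i ^ 2 + dn (XL E y b) i ^ 2) :=
        mul_le_mul_of_nonneg_right (hκl _) (by positivity)
      have h3 : Kf (b, i) * (XL E v b i ^ 2 + dn (XL E v b) i ^ 2) ≤
          K * (XL E v b i ^ 2 + dn (XL E v b) i ^ 2) :=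
        mul_le_mul_of_nonneg_right (hKl _) (by positivity)
      linarith
    · rw [if_neg h, if_neg h, Complex.zero_re]
      have h1 : Real.log (Real.tan (Real.pi * a b i)) = 0 ∧
          Real.log (Real.cos (Real.pi * a b i)) = 0 := by
        unfold Lv at h
        rw [not_and_or, not_not, not_not] at h
        rcases h with h | h
        · rw [h, mul_zero, Real.tan_zero, Real.cos_zero, Real.log_zero, Real.log_one]
          exact ⟨rfl, rfl⟩
        · rw [h, mul_one_div, Real.tan_pi_div_two, Real.cos_pi_div_two, Real.log_zero]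
          exact ⟨rfl, rfl⟩
      rw [h1.1, h1.2, zero_mul, zero_mul, add_zero, neg_zero, mul_zero, sub_zero, zero_add]
      positivity
  -- the first sum
  have hsum1 : (∑ b, ∑ i, (if Lv a b i then LT (nu' E b i u) (xi a E b i u) - (hh (a b i) : ℂ)
      else 0)).re ≤ -(κ / KL) * Y + K * C * V := by
    rw [Complex.re_sum]
    simp only [Complex.re_sum]
    refine (Finset.sum_le_sum fun b _ => Finset.sum_le_sum fun i _ => hterm b i).trans ?_
    simp only [Finset.sum_add_distrib, Finset.sum_sub_distrib, Finset.sum_neg_distrib,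
      ← Finset.mul_sum]
    have h1 : ∑ b, ∑ i, XL E v b i ^ 2 + ∑ b, ∑ i, dn (XL E v b) i ^ 2 ≤ C * V := by
      rw [← Finset.sum_add_distrib, hC, Finset.sum_mul]
      refine Finset.sum_le_sum fun b _ => ?_
      rw [← Finset.sum_add_distrib, Finset.sum_mul]
      refine Finset.sum_le_sum fun i _ => ?_
      rw [XLa, XLd, add_mul, hV]
      exact add_le_add (cs _ _) (cs _ _)
    have h2 := hLV' y
    rw [← hY] at h2
    have h3 : κ / KL * Y ≤ κ * ∑ b, ∑ i,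
        (if Lv a b i then XL E y b i ^ 2 + dn (XL E y b) i ^ 2 else 0) := by
      rw [div_mul_eq_mul_div, div_le_iff₀ hKL, mul_assoc]
      refine mul_le_mul_of_nonneg_left ?_ hκ.le
      rw [mul_comm _ KL]
      exact h2
    have h4 : ∑ b, ∑ i, Real.log (Real.tan (Real.pi * a b i)) * XL E y b i +
        ∑ b, ∑ i, Real.log (Real.cos (Real.pi * a b i)) * dn (XL E y b) i = 0 := by
      rw [← hcr, ← Finset.sum_add_distrib]
      refine Finset.sum_congr rfl fun b _ => ?_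
      rw [← Finset.sum_add_distrib]
    have h5 : K * (∑ b, ∑ i, XL E v b i ^ 2 + ∑ b, ∑ i, dn (XL E v b) i ^ 2) ≤ K * (C * V) :=
      mul_le_mul_of_nonneg_left h1 hK.le
    linarith
  -- the second sum
  have hzr : ∀ b, (ze E b u).re = ∑ j, y j * ((n1 (E j b) - n2 (E j b) : ℤ) : ℝ) := by
    intro b
    unfold ze
    rw [re_lin]
    simp only [hyj]
  have hzi : ∀ b, (ze E b u).im = ∑ j, v j * ((n1 (E j b) - n2 (E j b) : ℤ) : ℝ) := by
    intro b
    unfold ze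
    rw [im_lin]
    simp only [hvj]
  have hsum2 : (∑ b, Complex.I * Real.pi * w b / 4 * ze E b u ^ 2).re ≤
      ε * Z * Y + W / (16 * ε) * V := by
    rw [Complex.re_sum, hZ, hW, Finset.mul_sum, Finset.sum_mul, Finset.sum_div, Finset.sum_mul,
      ← Finset.sum_add_distrib]
    refine Finset.sum_le_sum fun b _ => ?_
    rw [ze_re]
    refine (amgm (Real.pi * w b) _ _ ε hε0).trans ?_
    rw [hzr, hzi]
    have h1 := cs y fun j => n1 (E j b) - n2 (E j b)
    have h2 := cs v fun j => n1 (E j b) - n2 (E j b)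
    rw [← hY] at h1
    rw [← hV] at h2
    refine add_le_add ?_ ?_
    · rw [mul_assoc]
      exact mul_le_mul_of_nonneg_left h1 hε0.le
    · rw [div_mul_eq_mul_div, div_mul_eq_mul_div, mul_assoc]
      refine div_le_div_of_nonneg_right ?_ (by positivity)
      exact mul_le_mul_of_nonneg_left h2 (sq_nonneg _)
  unfold qq
  rw [Complex.add_re]
  refine (add_le_add hsum1 hsum2).trans ?_
  have h1 : ε * Z * Y ≤ κ / (2 * KL) * Y := mul_le_mul_of_nonneg_right hεZ hY0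
  have h2 : κ / KL = 2 * (κ / (2 * KL)) := by
    field_simp
  rw [h2]
  nlinarith
 
end Pool.Agent.Q190.XF
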